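import Mathlib
import Pool.Agent.helper79.JP.Defs
import Pool.Agent.helper85.MT.MLS

/-!
# JP project, module JD: equidistribution of products of two integers
-/

set_option autoImplicit false

open Finset
open Pool.Agent.helper7.OC

namespace Pool.Agent.helper79.JP

/-- The sum of the values of a character over a finite set. -/
private noncomputable def jdW {q : ℕ} (A : Finset ℕ) (χ : DirichletCharacter ℂ q) : ℂ :=
  ∑ w ∈ A, χ (w : ZMod q)

open Classical in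
/-- The total of the products over the primitive characters. -/
private noncomputable def jdG (A₁ A₂ : Finset ℕ) (q : ℕ) : ℝ :=
  ∑ χ : DirichletCharacter ℂ q with χ.IsPrimitive, ‖jdW A₁ χ‖ * ‖jdW A₂ χ‖

open Classical in
private lemma jd_ls (A : Finset ℕ) (V N R : ℕ) (h : A ⊆ Ioc V (V + N)) :
    ∑ q ∈ Icc 1 R, ∑ χ : DirichletCharacter ℂ q with χ.IsPrimitive, ‖jdW A χ‖ ^ 2
      ≤ 5 * (((N : ℝ) + R ^ 2) * A.card) := by
  have h1 := Pool.Agent.helper85.MT.mult_large_sieve R V N (fun n => if n ∈ A then 1 else 0)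
  have h2 : ∑ n ∈ Ioc V (V + N), ‖(if n ∈ A then (1 : ℂ) else 0)‖ ^ 2 = A.card := by
    have e : ∀ n, ‖(if n ∈ A then (1 : ℂ) else 0)‖ ^ 2 = if n ∈ A then (1 : ℝ) else 0 := by
      intro n; split_ifs <;> simp
    simp_rw [e]
    rw [← sum_filter, sum_const, nsmul_eq_mul, mul_one]
    congr 2
    ext n
    rw [mem_filter]
    exact ⟨fun hn => hn.2, fun hn => ⟨h hn, hn⟩⟩
  rw [h2, mul_assoc] at h1
  refine le_trans (sum_le_sum fun q hq => ?_) h1
  rw [mem_Icc] at hq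
  have hφ : (0 : ℝ) < q.totient := by
    exact_mod_cast Nat.totient_pos.mpr (by omega)
  have h3 : (1 : ℝ) ≤ (q : ℝ) / q.totient := by
    rw [le_div_iff₀ hφ, one_mul]
    exact_mod_cast Nat.totient_le q
  have h4 : ∑ χ : DirichletCharacter ℂ q with χ.IsPrimitive, ‖jdW A χ‖ ^ 2
      = ∑ χ : DirichletCharacter ℂ q with χ.IsPrimitive,
        ‖∑ n ∈ Ioc V (V + N), (if n ∈ A then (1 : ℂ) else 0) * χ n‖ ^ 2 := by
    refine sum_congr rfl fun χ _ => ?_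
    congr 2
    unfold jdW
    have e : ∀ n ∈ Ioc V (V + N), (if n ∈ A then (1 : ℂ) else 0) * χ n
        = if n ∈ A then χ (n : ZMod q) else 0 := by
      intro n _; split_ifs <;> simp
    rw [sum_congr rfl e, ← sum_filter]
    refine sum_congr ?_ fun _ _ => rfl
    ext n
    rw [mem_filter]
    exact ⟨fun hn => ⟨h hn, hn⟩, fun hn => hn.2⟩
  rw [h4]
  have h5 : 0 ≤ ∑ χ : DirichletCharacter ℂ q with χ.IsPrimitive,
        ‖∑ n ∈ Ioc V (V + N), (if n ∈ A then (1 : ℂ) else 0) * χ n‖ ^ 2 :=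
    sum_nonneg fun _ _ => sq_nonneg _
  exact le_mul_of_one_le_left h5 h3

private lemma jd_sum (A₁ A₂ : Finset ℕ) (V₁ N₁ V₂ N₂ R : ℕ) (h₁ : A₁ ⊆ Ioc V₁ (V₁ + N₁))
    (h₂ : A₂ ⊆ Ioc V₂ (V₂ + N₂)) : ∑ q ∈ Icc 1 R, jdG A₁ A₂ q
      ≤ 5 * √(((N₁ : ℝ) + R ^ 2) * A₁.card * ((N₂ + R ^ 2) * A₂.card)) := by
  classical
  unfold jdG
  have key : ∑ q ∈ Icc 1 R, ∑ χ : DirichletCharacter ℂ q with χ.IsPrimitive,
      ‖jdW A₁ χ‖ * ‖jdW A₂ χ‖
      ≤ √(∑ q ∈ Icc 1 R, ∑ χ : DirichletCharacter ℂ q with χ.IsPrimitive, ‖jdW A₁ χ‖ ^ 2)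
        * √(∑ q ∈ Icc 1 R, ∑ χ : DirichletCharacter ℂ q with χ.IsPrimitive, ‖jdW A₂ χ‖ ^ 2) := by
    have h := Real.sum_mul_le_sqrt_mul_sqrt ((Icc 1 R).sigma fun q =>
      (univ : Finset (DirichletCharacter ℂ q)).filter fun χ => χ.IsPrimitive)
      (fun p => ‖jdW A₁ p.2‖) (fun p => ‖jdW A₂ p.2‖)
    rw [sum_sigma, sum_sigma, sum_sigma] at h
    exact h
  refine key.trans ?_
  have a1 := jd_ls A₁ V₁ N₁ R h₁
  have a2 := jd_ls A₂ V₂ N₂ R h₂
  have b1 := Real.sqrt_le_sqrt a1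
  have b2 := Real.sqrt_le_sqrt a2
  refine (mul_le_mul b1 b2 (Real.sqrt_nonneg _) (Real.sqrt_nonneg _)).trans (le_of_eq ?_)
  rw [← Real.sqrt_mul (by positivity)]
  have e : 5 * (((N₁ : ℝ) + (R : ℝ) ^ 2) * (A₁.card : ℝ)) * (5 * (((N₂ : ℝ) + (R : ℝ) ^ 2) * (A₂.card : ℝ)))
      = 5 ^ 2 * (((N₁ : ℝ) + R ^ 2) * A₁.card * ((N₂ + R ^ 2) * A₂.card)) := by ring
  rw [e, Real.sqrt_mul (by norm_num), Real.sqrt_sq (by norm_num)]

/-- values of an induced character at an integer coprime to the modulus -/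
private lemma jd_level {q M : ℕ} (h : q ∣ M) (χ : DirichletCharacter ℂ q) (w : ℕ)
    (hw : w.Coprime M) : (DirichletCharacter.changeLevel h χ) (w : ZMod M) = χ (w : ZMod q) := by
  have h1 := DirichletCharacter.changeLevel_eq_cast_of_dvd χ h (ZMod.unitOfCoprime w hw)
  rw [ZMod.coe_unitOfCoprime] at h1
  rw [h1, ZMod.cast_natCast h]

private lemma jdW_level {q M : ℕ} (h : q ∣ M) (χ : DirichletCharacter ℂ q) (A : Finset ℕ)
    (hA : ∀ w ∈ A, w.Coprime M) : jdW A (DirichletCharacter.changeLevel h χ) = jdW A χ := by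
  unfold jdW
  exact sum_congr rfl fun w hw => jd_level h χ w (hA w hw)

open Classical in
private lemma jd_cond (A₁ A₂ : Finset ℕ) (M : ℕ) [NeZero M] (h₁ : ∀ w ∈ A₁, w.Coprime M)
    (h₂ : ∀ w ∈ A₂, w.Coprime M) :
    ∑ χ : DirichletCharacter ℂ M with χ ≠ 1, ‖jdW A₁ χ‖ * ‖jdW A₂ χ‖
      ≤ ∑ q ∈ M.divisors.filter (fun q => 1 < q), jdG A₁ A₂ q := by
  have hmap : ∀ χ ∈ (univ : Finset (DirichletCharacter ℂ M)).filter (fun χ => χ ≠ 1),
      χ.conductor ∈ M.divisors.filter (fun q => 1 < q) := by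
    intro χ hχ
    rw [mem_filter] at hχ
    rw [mem_filter, Nat.mem_divisors]
    refine ⟨⟨χ.conductor_dvd_level, NeZero.ne M⟩, ?_⟩
    have h1 : χ.conductor ≠ 1 := fun h => hχ.2
      (DirichletCharacter.eq_one_iff_conductor_eq_one.mpr h)
    have h2 : χ.conductor ≠ 0 := fun h => by
      have := χ.conductor_dvd_level
      rw [h, zero_dvd_iff] at this
      exact NeZero.ne M this
    omega
  rw [← sum_fiberwise_of_maps_to hmap]
  refine sum_le_sum fun q hq => ?_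
  rw [mem_filter, Nat.mem_divisors] at hq
  obtain ⟨⟨hqM, _⟩, hq1⟩ := hq
  rw [jdG]
  have hsub : ((univ : Finset (DirichletCharacter ℂ M)).filter (fun χ => χ ≠ 1)).filter
      (fun χ => χ.conductor = q) ⊆ ((univ : Finset (DirichletCharacter ℂ q)).filter
        fun χ => χ.IsPrimitive).image (DirichletCharacter.changeLevel hqM) := by
    intro χ hχ
    rw [mem_filter] at hχ
    obtain ⟨_, hc⟩ := hχ
    subst hc
    rw [mem_image]
    refine ⟨χ.primitiveCharacter, mem_filter.mpr ⟨mem_univ _, ?_⟩, ?_⟩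
    · exact DirichletCharacter.primitiveCharacter_isPrimitive χ
    · exact (DirichletCharacter.factorsThrough_conductor χ).eq_changeLevel.symm
  refine (sum_le_sum_of_subset_of_nonneg hsub fun _ _ _ => by positivity).trans ?_
  have : NeZero q := ⟨by omega⟩
  rw [sum_image (fun a _ b _ hab => DirichletCharacter.changeLevel_injective hqM hab)]
  refine sum_le_sum fun χ _ => ?_
  rw [jdW_level hqM χ A₁ h₁, jdW_level hqM χ A₂ h₂]

theorem equi (A₁ A₂ : Finset ℕ) (V₁ N₁ V₂ N₂ R : ℕ) (h₁ : A₁ ⊆ Ioc V₁ (V₁ + N₁))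
    (h₂ : A₂ ⊆ Ioc V₂ (V₂ + N₂)) : ∃ G : ℕ → ℝ, (∀ q, 0 ≤ G q) ∧
    (∑ q ∈ Icc 1 R, G q
      ≤ 5 * √(((N₁ : ℝ) + R ^ 2) * A₁.card * ((N₂ + R ^ 2) * A₂.card))) ∧
    ∀ M e : ℕ, 1 ≤ M → e.Coprime M → (∀ w ∈ A₁, w.Coprime M) → (∀ w ∈ A₂, w.Coprime M) →
      ((A₁.card : ℝ) * A₂.card - ∑ q ∈ M.divisors.filter (fun q => 1 < q), G q) / M.totient
        ≤ (((A₁ ×ˢ A₂).filter fun w => w.1 * w.2 % M = e % M).card : ℝ) := by
  classical
  refine ⟨jdG A₁ A₂, fun q => sum_nonneg fun _ _ => by positivity,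
    jd_sum A₁ A₂ V₁ N₁ V₂ N₂ R h₁ h₂, ?_⟩
  intro M e hM he hA₁ hA₂
  have : NeZero M := ⟨by omega⟩
  have hφ : (0 : ℝ) < M.totient := by exact_mod_cast Nat.totient_pos.mpr (by omega)
  rw [div_le_iff₀ hφ]
  set P := (A₁ ×ˢ A₂).filter fun w => w.1 * w.2 % M = e % M with hP
  have heu : IsUnit (e : ZMod M) := (ZMod.isUnit_iff_coprime e M).mpr he
  -- orthogonality
  have h3 : ((P.card : ℂ)) * M.totient
      = ∑ χ : DirichletCharacter ℂ M, χ (e : ZMod M)⁻¹ * (jdW A₁ χ * jdW A₂ χ) := by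
    have e1 : ∀ χ : DirichletCharacter ℂ M, χ (e : ZMod M)⁻¹ * (jdW A₁ χ * jdW A₂ χ)
        = ∑ w ∈ A₁ ×ˢ A₂, χ (e : ZMod M)⁻¹ * χ ((w.1 * w.2 : ℕ) : ZMod M) := by
      intro χ
      unfold jdW
      rw [sum_mul_sum, ← sum_product', mul_sum]
      refine sum_congr rfl fun w _ => ?_
      rw [Nat.cast_mul, map_mul]
    simp_rw [e1]
    rw [sum_comm]
    have e2 : ∀ w : ℕ × ℕ, ∑ χ : DirichletCharacter ℂ M,
        χ (e : ZMod M)⁻¹ * χ ((w.1 * w.2 : ℕ) : ZMod M)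
        = if w.1 * w.2 % M = e % M then (M.totient : ℂ) else 0 := by
      intro w
      rw [DirichletCharacter.sum_char_inv_mul_char_eq ℂ heu]
      congr 1
      rw [ZMod.natCast_eq_natCast_iff']
      exact propext eq_comm
    simp_rw [e2]
    rw [← sum_filter, sum_const, nsmul_eq_mul]
  have h4 : ∑ χ : DirichletCharacter ℂ M, χ (e : ZMod M)⁻¹ * (jdW A₁ χ * jdW A₂ χ)
      = (A₁.card : ℂ) * A₂.card
        + ∑ χ : DirichletCharacter ℂ M with χ ≠ 1, χ (e : ZMod M)⁻¹ * (jdW A₁ χ * jdW A₂ χ) := by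
    rw [← sum_filter_add_sum_filter_not univ (fun χ : DirichletCharacter ℂ M => χ = 1)]
    congr 1
    rw [filter_eq' univ (1 : DirichletCharacter ℂ M), if_pos (mem_univ _), sum_singleton]
    have f1 : (1 : DirichletCharacter ℂ M) (e : ZMod M)⁻¹ = 1 := by
      obtain ⟨u, hu⟩ := heu
      rw [← hu, ZMod.inv_coe_unit]
      exact MulChar.one_apply_coe _
    have f2 : ∀ A : Finset ℕ, (∀ w ∈ A, w.Coprime M) → jdW A (1 : DirichletCharacter ℂ M) = A.card := by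
      intro A hA
      unfold jdW
      have : ∀ w ∈ A, (1 : DirichletCharacter ℂ M) (w : ZMod M) = 1 := fun w hw =>
        MulChar.one_apply ((ZMod.isUnit_iff_coprime w M).mpr (hA w hw))
      rw [sum_congr rfl this, sum_const, nsmul_eq_mul, mul_one]
    rw [f1, f2 A₁ hA₁, f2 A₂ hA₂, one_mul]
  have h5 : ‖∑ χ : DirichletCharacter ℂ M with χ ≠ 1, χ (e : ZMod M)⁻¹ * (jdW A₁ χ * jdW A₂ χ)‖
      ≤ ∑ q ∈ M.divisors.filter (fun q => 1 < q), jdG A₁ A₂ q := by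
    refine (norm_sum_le _ _).trans (le_trans (sum_le_sum fun χ _ => ?_) (jd_cond A₁ A₂ M hA₁ hA₂))
    rw [norm_mul, norm_mul]
    exact mul_le_of_le_one_left (by positivity) (χ.norm_le_one _)
  rw [h4] at h3
  have h6 : ((A₁.card : ℝ) * A₂.card) - P.card * M.totient
      ≤ ∑ q ∈ M.divisors.filter (fun q => 1 < q), jdG A₁ A₂ q := by
    refine le_trans ?_ h5
    have e3 : ∑ χ : DirichletCharacter ℂ M with χ ≠ 1, χ (e : ZMod M)⁻¹ * (jdW A₁ χ * jdW A₂ χ)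
        = ((((P.card : ℝ) * M.totient - A₁.card * A₂.card : ℝ)) : ℂ) := by
      push_cast
      rw [h3]; ring
    rw [e3, Complex.norm_real, Real.norm_eq_abs]
    have := neg_abs_le ((P.card : ℝ) * M.totient - A₁.card * A₂.card)
    linarith
  linarith

end Pool.Agent.helper79.JP
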